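import Pool.Agent.H70.NE.Targets
import Pool.Agent.H79.OQ.TBI

/-!
# BLG: the bound for one table
-/

set_option autoImplicit false

namespace Pool.Agent.H74.NE

open Finset Filter Pool.Agent.H6.NB Pool.Agent.H70.OQ Pool.Agent.H70.NC Pool.Agent.H70.NE

section

variable {M R I : Type} {Y : ℕ → Type} [Fintype M] [DecidableEq M] [Fintype R]
  [DecidableEq R] [Nonempty R] [Fintype I] [∀ i, Fintype (Y i)] [∀ i, DecidableEq (Y i)]
  [∀ i, Nonempty (Y i)]

/-- The weighted sum over the answers is at most one. -/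
theorem blg_ic_le (ρ : (M → Bool) → ℝ) (hρ : ∀ β, 0 ≤ ρ β) (hρ1 : ∑ β, ρ β = 1)
    (p : (M → Bool) → Prop) : ∑ β : M → Bool, ρ β * ic (p β) ≤ 1 := by
  calc ∑ β : M → Bool, ρ β * ic (p β) ≤ ∑ β : M → Bool, ρ β * 1 :=
        sum_le_sum fun β _ => mul_le_mul_of_nonneg_left (Pool.Agent.H79.OQ.TBI.ic_le_one _) (hρ β)
    _ = 1 := by rw [← sum_mul, hρ1, one_mul]

omit [∀ i, Fintype (Y i)] [∀ i, Nonempty (Y i)] in
/-- The bound for fixed live rows and hidden choices. -/
theorem blg_pair (h5 : T_UWS) (k T w L : ℕ) (ε : ℝ) (hε : 0 ≤ ε) (hL : 1 ≤ L)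
    (ρ : (M → Bool) → ℝ) (hρ : ∀ β, 0 ≤ ρ β) (hρ1 : ∑ β, ρ β = 1)
    (Bd : (I → Bool) → (M → Bool) → Prop)
    (hBd : ∀ (l : M × R → Bool) (Tr : I → Pool.Agent.H68.AC.DT (M × R)),
      (∀ m, L ≤ (univ.filter fun r => l (m, r) = true).card) → (∀ i, (Tr i).depth ≤ T * w) →
      ∑ β, ρ β * ∑ h : M → R, uw (Lof l) h * ic (Bd (fun i => (Tr i).eval (glu h β)) β) ≤ ε)
    (f : I → (Node (M × R) Y k → Bool) → Bool) (H : Hid (M × R) Y k) (l : M × R → Bool) :
    ∑ h : M → R, uw (Lof l) h * ∑ β : M → Bool,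
        ρ β * ic (Bd (fun i => f i (sv (glu h β) k H)) β) ≤
      ∑ i, ic (¬ DR (T * w) k (f i) H l) +
        ic (∃ a, (univ.filter fun z => l (a, z) = true).card < L) + ε := by
  have huw := h5 M R (Lof l)
  have huw1 := huw.2 (fun a => Pool.Agent.H79.OQ.TBI.Lof_nonempty l a)
  have n1 : (0 : ℝ) ≤ ∑ i, ic (¬ DR (T * w) k (f i) H l) :=
    sum_nonneg fun x _ => Pool.Agent.H79.OQ.TB1.ic_nonneg _
  have n2 := Pool.Agent.H79.OQ.TB1.ic_nonneg (∃ a, (univ.filter fun z => l (a, z) = true).card < L)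
  have triv : ∑ h : M → R, uw (Lof l) h * ∑ β : M → Bool,
      ρ β * ic (Bd (fun i => f i (sv (glu h β) k H)) β) ≤ 1 := by
    calc _ ≤ ∑ h : M → R, uw (Lof l) h * 1 :=
          sum_le_sum fun h _ => mul_le_mul_of_nonneg_left (blg_ic_le ρ hρ hρ1 _) (huw.1 h)
      _ = 1 := by rw [← sum_mul, huw1, one_mul]
  by_cases c1 : ∀ i, DR (T * w) k (f i) H l
  · by_cases c2 : ∃ a, (univ.filter fun z => l (a, z) = true).card < L
    · refine triv.trans ?_
      rw [Pool.Agent.H79.OQ.TBI.ic_true c2]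
      linarith
    · push Not at c2
      choose Tr hTd hTe using c1
      have key := hBd l Tr c2 hTd
      have e : ∑ h : M → R, uw (Lof l) h * ∑ β : M → Bool,
          ρ β * ic (Bd (fun i => f i (sv (glu h β) k H)) β) =
          ∑ β : M → Bool, ρ β * ∑ h : M → R, uw (Lof l) h *
            ic (Bd (fun i => (Tr i).eval (glu h β)) β) := by
        have e1 : ∀ β : M → Bool, ρ β * ∑ h : M → R, uw (Lof l) h *
            ic (Bd (fun i => (Tr i).eval (glu h β)) β) = ∑ h : M → R, ρ β * (uw (Lof l) h *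
            ic (Bd (fun i => (Tr i).eval (glu h β)) β)) := fun β => mul_sum _ _ _
        rw [sum_congr rfl fun β _ => e1 β, sum_comm]
        refine sum_congr rfl fun h _ => ?_
        rw [mul_sum]
        refine sum_congr rfl fun β _ => ?_
        by_cases hz : uw (Lof l) h = 0
        · rw [hz, zero_mul, zero_mul, mul_zero]
        · have hlive := Pool.Agent.H79.OQ.TBI.live_of_uw l (fun a => lt_of_lt_of_le hL (c2 a)) h hz
          have hcor : (fun i => f i (sv (glu h β) k H)) = fun i => (Tr i).eval (glu h β) := by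
            funext i
            exact (hTe i (glu h β) (fun v hv =>
              Pool.Agent.H79.OQ.TBI.glu_true l h hlive β v hv)).symm
          rw [hcor]
          ring
      rw [e]
      linarith
  · push Not at c1
    obtain ⟨x, hx⟩ := c1
    refine triv.trans ?_
    have h1 : ic (¬ DR (T * w) k (f x) H l) ≤ ∑ i, ic (¬ DR (T * w) k (f i) H l) :=
      single_le_sum (f := fun i => ic (¬ DR (T * w) k (f i) H l))
        (fun y _ => Pool.Agent.H79.OQ.TB1.ic_nonneg _) (mem_univ x)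
    rw [Pool.Agent.H79.OQ.TBI.ic_true hx] at h1
    linarith

end

theorem pf_blg (h1 : Pool.Agent.H70.NC.T_OFR) (h3 : Pool.Agent.H70.OQ.T_SYM)
    (h4 : Pool.Agent.H70.OQ.T_LIV) (h5 : Pool.Agent.H70.OQ.T_UWS)
    (h6 : Pool.Agent.H70.OQ.T_LWS) : Pool.Agent.H70.NE.T_BLG := by
  intro M R I Y _ _ _ _ _ _ _ _ _ k m S t T w G L G₀ q ε hw htw hq hq64 hG hε hL hGL hY ρ hρ hρ1
    Bd hBd f hf
  have hq1 := Pool.Agent.H79.OQ.TB1.q_le hw hq hq64
  set bad : Hid (M × R) Y k → (M → R) → (M → Bool) → Prop := fun H h β =>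
    Bd (fun i => f i (sv (glu h β) k H)) β with hbad
  have e0 : ∑ H : Hid (M × R) Y k, ∑ h : M → R, ∑ β, ρ β * ic (bad H h β) =
      ∑ h : M → R, ∑ H : Hid (M × R) Y k, ∑ β : M → Bool, ρ β * ic (bad H h β) := sum_comm
  have hR : (0 : ℝ) < (Fintype.card R : ℝ) ^ Fintype.card M := by
    have : 0 < Fintype.card R := Fintype.card_pos
    positivity
  have e1 := h3 M R q (fun h => ∑ H : Hid (M × R) Y k, ∑ β : M → Bool, ρ β * ic (bad H h β))
  have e2 : ∑ h : M → R, ∑ H : Hid (M × R) Y k, ∑ β : M → Bool, ρ β * ic (bad H h β) =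
      (Fintype.card R : ℝ) ^ Fintype.card M * ∑ l : M × R → Bool, lw q l *
        ∑ h : M → R, uw (Lof l) h * ∑ H : Hid (M × R) Y k, ∑ β : M → Bool,
          ρ β * ic (bad H h β) := by
    rw [e1, mul_div_cancel₀ _ hR.ne']
  have hliv := h4 M R q L G₀ hq.le hq1 hGL
  have hlw1 : ∑ l : M × R → Bool, lw q l = 1 := h6 (M × R) q
  have hofr : ∀ i, ∑ H : Hid (M × R) Y k, ∑ l : M × R → Bool, lw q l *
      ic (¬ DR (T * w) k (f i) H l) ≤ m * errD (M × R) Y S w G q k * Fintype.card (Hid (M × R) Y k) :=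
    fun i => h1 (M × R) Y k m S t T w G q hw htw hq hq64 hG hY (f i) (hf i)
  have e3 : ∑ l : M × R → Bool, lw q l *
        ∑ h : M → R, uw (Lof l) h * ∑ H : Hid (M × R) Y k, ∑ β : M → Bool,
          ρ β * ic (bad H h β) ≤
      ∑ l : M × R → Bool, lw q l * ∑ H : Hid (M × R) Y k,
        (∑ i, ic (¬ DR (T * w) k (f i) H l) +
        ic (∃ a, (univ.filter fun z => l (a, z) = true).card < L) + ε) := by
    refine sum_le_sum fun l _ => mul_le_mul_of_nonneg_left ?_
      (Pool.Agent.H79.OQ.TB1.lw_nonneg hq.le hq1 l)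
    have : ∑ h : M → R, uw (Lof l) h * ∑ H : Hid (M × R) Y k, ∑ β : M → Bool,
        ρ β * ic (bad H h β) =
        ∑ H : Hid (M × R) Y k, ∑ h : M → R, uw (Lof l) h * ∑ β : M → Bool,
          ρ β * ic (bad H h β) := by
      rw [sum_comm]
      refine sum_congr rfl fun h _ => ?_
      rw [mul_sum]
    rw [this]
    refine sum_le_sum fun H _ => ?_
    exact blg_pair h5 k T w L ε hε hL ρ hρ hρ1 Bd hBd f H l
  have e4 : ∑ l : M × R → Bool, lw q l * ∑ H : Hid (M × R) Y k,
        (∑ i, ic (¬ DR (T * w) k (f i) H l) +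
        ic (∃ a, (univ.filter fun z => l (a, z) = true).card < L) + ε) =
      (∑ i, ∑ H : Hid (M × R) Y k, ∑ l : M × R → Bool, lw q l *
          ic (¬ DR (T * w) k (f i) H l)) +
        Fintype.card (Hid (M × R) Y k) * (∑ l : M × R → Bool, lw q l *
          ic (∃ a, (univ.filter fun z => l (a, z) = true).card < L)) +
        Fintype.card (Hid (M × R) Y k) * (∑ l : M × R → Bool, lw q l) * ε := by
    have s1 : ∑ i, ∑ H : Hid (M × R) Y k, ∑ l : M × R → Bool, lw q l *
          ic (¬ DR (T * w) k (f i) H l) = ∑ l : M × R → Bool, lw q l *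
          ∑ H : Hid (M × R) Y k, ∑ i, ic (¬ DR (T * w) k (f i) H l) := by
      calc ∑ i, ∑ H : Hid (M × R) Y k, ∑ l : M × R → Bool, lw q l *
          ic (¬ DR (T * w) k (f i) H l)
          = ∑ H : Hid (M × R) Y k, ∑ i, ∑ l : M × R → Bool, lw q l *
            ic (¬ DR (T * w) k (f i) H l) := sum_comm
        _ = ∑ H : Hid (M × R) Y k, ∑ l : M × R → Bool, ∑ i, lw q l *
            ic (¬ DR (T * w) k (f i) H l) := sum_congr rfl fun H _ => sum_comm
        _ = ∑ l : M × R → Bool, ∑ H : Hid (M × R) Y k, ∑ i, lw q l *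
            ic (¬ DR (T * w) k (f i) H l) := sum_comm
        _ = _ := by
          refine sum_congr rfl fun l _ => ?_
          rw [mul_sum]
          exact sum_congr rfl fun H _ => (mul_sum _ _ _).symm
    rw [s1, mul_sum (s := univ) (f := fun l : M × R → Bool => lw q l *
      ic (∃ a, (univ.filter fun z => l (a, z) = true).card < L)),
      mul_sum (s := univ) (f := fun l : M × R → Bool => lw q l), sum_mul, ← sum_add_distrib,
      ← sum_add_distrib]
    refine sum_congr rfl fun l _ => ?_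
    rw [sum_add_distrib, sum_add_distrib, sum_const, sum_const, card_univ]
    simp only [nsmul_eq_mul]
    ring
  have hx : ∑ i, ∑ H : Hid (M × R) Y k, ∑ l : M × R → Bool, lw q l *
          ic (¬ DR (T * w) k (f i) H l) ≤
      Fintype.card I * (m * errD (M × R) Y S w G q k * Fintype.card (Hid (M × R) Y k)) := by
    calc _ ≤ ∑ _x : I, (m * errD (M × R) Y S w G q k * Fintype.card (Hid (M × R) Y k) : ℝ) :=
          sum_le_sum fun x _ => hofr x
      _ = _ := by rw [sum_const, card_univ, nsmul_eq_mul]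
  rw [e4] at e3
  rw [e0, e2]
  have hcH : (0 : ℝ) ≤ Fintype.card (Hid (M × R) Y k) := by positivity
  have e5 : (∑ i, ∑ H : Hid (M × R) Y k, ∑ l : M × R → Bool, lw q l *
          ic (¬ DR (T * w) k (f i) H l)) +
        Fintype.card (Hid (M × R) Y k) * (∑ l : M × R → Bool, lw q l *
          ic (∃ a, (univ.filter fun z => l (a, z) = true).card < L)) +
        Fintype.card (Hid (M × R) Y k) * (∑ l : M × R → Bool, lw q l) * ε ≤
      Fintype.card I *
          (m * errD (M × R) Y S w G q k * Fintype.card (Hid (M × R) Y k)) +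
        Fintype.card (Hid (M × R) Y k) * (Fintype.card M * L * (1 - q) ^ G₀) +
        Fintype.card (Hid (M × R) Y k) * 1 * ε := by
    rw [hlw1]
    have := mul_le_mul_of_nonneg_left hliv hcH
    linarith
  calc (Fintype.card R : ℝ) ^ Fintype.card M * _
      ≤ (Fintype.card R : ℝ) ^ Fintype.card M * (Fintype.card I *
          (m * errD (M × R) Y S w G q k * Fintype.card (Hid (M × R) Y k)) +
        Fintype.card (Hid (M × R) Y k) * (Fintype.card M * L * (1 - q) ^ G₀) +
        Fintype.card (Hid (M × R) Y k) * 1 * ε) :=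
        mul_le_mul_of_nonneg_left (e3.trans e5) hR.le
    _ = _ := by
        rw [Fintype.card_fun]
        push_cast
        ring

end Pool.Agent.H74.NE
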